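import Pool.Agent.P.MP_eef3c4_an.H.All

/-! Every number in `[1, ∞]` is the optimal `C(K)`-extension constant of an isometric copy in
`C[0,1]` of any given infinite-dimensional separable superreflexive space. -/

namespace Pool.Agent.Results.MP_eef3c4_an.AllConstants

open scoped NNReal ENNReal

universe u

/-- `X` is isomorphic to a uniformly convex space. -/
def Superreflexive (X : Type) [NormedAddCommGroup X] [NormedSpace ℝ X] : Prop :=
  ∃ (Z : Type) (_ : NormedAddCommGroup Z) (_ : NormedSpace ℝ Z),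
    UniformConvexSpace Z ∧ Nonempty (X ≃L[ℝ] Z)

/-- The pair `(E, Y)` has the `μ`-`C(K)`-extension property. -/
def HasEP {Y : Type} [NormedAddCommGroup Y] [NormedSpace ℝ Y] (E : Submodule ℝ Y) (μ : ℝ) : Prop :=
  ∀ (K : Type u) [TopologicalSpace K] [CompactSpace K] [T2Space K] (T : E →L[ℝ] C(K, ℝ)),
    ∃ T' : Y →L[ℝ] C(K, ℝ), (∀ x : E, T' x = T x) ∧ ‖T'‖ ≤ μ * ‖T‖

/-- Some operator of norm at most one from `E` to some `C(K)` has no bounded extension to `Y` of
norm less than `l` (for `l = ∞`: no bounded extension at all). -/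
def ExtLower {Y : Type} [NormedAddCommGroup Y] [NormedSpace ℝ Y] (E : Submodule ℝ Y)
    (l : ℝ≥0∞) : Prop :=
  ∃ (K : Type) (_ : TopologicalSpace K) (_ : CompactSpace K) (_ : T2Space K)
    (T : E →L[ℝ] C(K, ℝ)), ‖T‖ ≤ 1 ∧
    ∀ T' : Y →L[ℝ] C(K, ℝ), (∀ x : E, T' x = T x) → l ≤ ‖T'‖ₑ

open Pool.Agent.P.MP_eef3c4_an in
/-- Let `X` be infinite-dimensional, separable and superreflexive and let `1 ≤ l ≤ ∞`. Then `X` has
an isometric copy `E` in `C[0,1]` with the `μ`-`C(K)`-extension property for every real `μ ≥ l`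
and with a contraction into some `C(K)` all of whose bounded extensions have norm at least `l`. -/
theorem result (X : Type) [NormedAddCommGroup X] [NormedSpace ℝ X] [CompleteSpace X]
    [TopologicalSpace.SeparableSpace X] (hX : ¬ FiniteDimensional ℝ X) (hs : Superreflexive X)
    (l : ℝ≥0∞) (hl : 1 ≤ l) :
    ∃ E : Submodule ℝ C(unitInterval, ℝ), IsClosed (E : Set C(unitInterval, ℝ)) ∧
      Nonempty (X ≃ₗᵢ[ℝ] E) ∧ (∀ μ : ℝ≥0, l ≤ μ → HasEP.{u} E μ) ∧ ExtLower E l := by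
  obtain ⟨Z, _, _, hZ, ⟨Φ⟩⟩ := hs
  have h1 : l⁻¹ ≤ 1 := ENNReal.inv_le_one.2 hl
  have h2 : l⁻¹ ≠ ⊤ := ne_top_of_le_ne_top ENNReal.one_ne_top h1
  have h3 : ∀ μ : ℝ≥0, l ≤ μ ↔ 1 ≤ l⁻¹.toReal * μ := fun μ => by
    rw [← ENNReal.coe_toReal μ, ← ENNReal.toReal_mul, ← ENNReal.toReal_one,
      ENNReal.toReal_le_toReal ENNReal.one_ne_top (ENNReal.mul_ne_top h2 ENNReal.coe_ne_top),
      mul_comm, ← div_eq_mul_inv, ENNReal.le_div_iff_mul_le (.inl (zero_lt_one.trans_le hl).ne')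
        (.inr ENNReal.coe_ne_top), one_mul]
  obtain ⟨j, ⟨U, hU, hU'⟩, hj⟩ := H.all hX Φ (t := l⁻¹.toReal) ENNReal.toReal_nonneg
    (ENNReal.toReal_le_of_le_ofReal zero_le_one (by simpa using hl))
  refine ⟨LinearMap.range j.toLinearMap, j.isometry.isClosedEmbedding.isClosed_range,
    ⟨j.equivRange⟩, fun μ hμ K _ _ _ T => ?_, Ball X, inferInstance, inferInstance, inferInstance,
    (canon X).comp j.equivRange.symm.toLinearIsometry.toContinuousLinearMap, ?_, fun T' hT' => ?_⟩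
  · obtain ⟨S, hS, hS'⟩ := H.factor (T.comp j.equivRange.toLinearIsometry.toContinuousLinearMap)
      T.opNorm_nonneg fun x => (T.le_opNorm _).trans_eq (by simp)
    have h4 := (h3 μ).1 hμ
    have h5 : 0 < l⁻¹.toReal := by
      refine ENNReal.toReal_nonneg.lt_of_ne fun h => ?_
      rw [← h, zero_mul] at h4
      exact not_lt.2 h4 one_pos
    refine ⟨(l⁻¹.toReal)⁻¹ • S.comp U, fun x => ?_,
      ContinuousLinearMap.opNorm_le_bound _ (by positivity) fun f => ?_⟩
    · obtain ⟨x, rfl⟩ := j.equivRange.surjective x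
      change (l⁻¹.toReal)⁻¹ • S (U (j x)) = T (j.equivRange x)
      rw [hU', map_smul, inv_smul_smul₀ h5.ne', hS']
      rfl
    · change ‖(l⁻¹.toReal)⁻¹ • S (U f)‖ ≤ _
      rw [norm_smul, Real.norm_of_nonneg (inv_pos.2 h5).le, mul_assoc]
      refine mul_le_mul ((inv_le_iff_one_le_mul₀' h5).2 h4) ((hS _).trans ?_) (norm_nonneg _)
        μ.coe_nonneg
      exact mul_le_mul_of_nonneg_left (hU f) T.opNorm_nonneg
  · refine ContinuousLinearMap.opNorm_le_bound _ zero_le_one fun x => ?_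
    exact (H.norm_canon _).trans_eq (by simp)
  · refine (h3 ‖T'‖₊).2 (hj T' fun x => (hT' (j.equivRange x)).trans ?_)
    exact congrArg (canon X) (j.equivRange.symm_apply_apply x)

/-- The case `l = 1`, `X = ℓ²`: the question read for one embedding has the answer yes. -/
theorem some_embedding : ∃ E : Submodule ℝ C(unitInterval, ℝ),
    IsClosed (E : Set C(unitInterval, ℝ)) ∧ ¬ FiniteDimensional ℝ E ∧ Superreflexive E ∧
      HasEP.{u} E 1 := by
  let b : HilbertBasis ℕ ℝ (lp (fun _ : ℕ => ℝ) 2) := default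
  have h1 : ¬ FiniteDimensional ℝ (lp (fun _ : ℕ => ℝ) 2) := fun _ =>
    (Infinite.not_finite (α := ℕ)) b.orthonormal.linearIndependent.finite
  have : TopologicalSpace.SeparableSpace (lp (fun _ : ℕ => ℝ) 2) := by
    rw [← TopologicalSpace.isSeparable_univ_iff, ← Submodule.top_coe (R := ℝ), ← b.dense_span]
    exact ((Set.countable_range b).isSeparable.span).closure
  obtain ⟨E, h2, ⟨e⟩, h3, -⟩ := result.{u} _ h1
    ⟨_, _, _, inferInstance, ⟨ContinuousLinearEquiv.refl ℝ _⟩⟩ 1 le_rfl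
  exact ⟨E, h2, fun _ => h1 (Module.Finite.equiv e.symm.toLinearEquiv),
    ⟨_, _, _, inferInstance, ⟨e.symm.toContinuousLinearEquiv⟩⟩, h3 1 le_rfl⟩

end Pool.Agent.Results.MP_eef3c4_an.AllConstants
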